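import Pool.Agent.J4H43.PP.Fin3
import Pool.Agent.J4H43.PP.Word
import Pool.Agent.J4H43.PP.Ex
import Pool.Agent.J4H94.PP.Comb
import Pool.Agent.J4H68.PP.Num3Core
import Pool.Agent.J4H31.PP.CombCore
import Pool.Agent.J4H13.PP.End
import Pool.Agent.J4H13.PP.Up

/-!
# The motivic Lie algebra has a positive proportion in `𝔤𝔯𝔱₁` in every depth
-/

namespace Pool.Agent.Results.MP_446dfa_ag.PositiveProportion

open Pool.Agent.Helper392_GT Pool.Agent.J4H43.PP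

universe u

/-- Let `𝔤` be a linear subspace of `𝔤𝔯𝔱₁` that is closed under the Ihara bracket and contains, for
each odd `n ≥ 3`, an element of weight `n` congruent to `ad(x)^(n-1) y` modulo depth two. For
`r ≥ 1` and `N > 3 r` with `N ≡ r` modulo `2` the weight `N` parts of the depth `r` parts of
the depth graded spaces of `𝔤` and `𝔤𝔯𝔱₁` have dimensions `1 ≤ d ≤ e` with
`⌊(N - 2r - 1)/(3r + 3)⌋^(r-1) ≤ r d`, `e ≤ C(N - 1, r - 1)` and `e ≤ 20^r d`. -/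
theorem result {k : Type u} [Field k] [CharZero k] (𝔤 : Submodule k (F2 k))
    (hgrt : 𝔤 ≤ grtSub k) (hbracket : IharaClosed 𝔤) (hsoule : HasSoule 𝔤) (N r : ℕ)
    (hr : 1 ≤ r) (hN : 3 * r < N) (hpar : N % 2 = r % 2) :
    1 ≤ dimG 𝔤 N r ∧ ((N - 2 * r - 1) / (3 * r + 3)) ^ (r - 1) ≤ r * dimG 𝔤 N r ∧
      dimG 𝔤 N r ≤ dimG (grtSub k) N r ∧ dimG (grtSub k) N r ≤ (N - 1).choose (r - 1) ∧
      dimG (grtSub k) N r ≤ 20 ^ r * dimG 𝔤 N r :=
  main3 t_EX t_WORD Pool.Agent.J4H94.PP.t_COMB3 Pool.Agent.J4H94.PP.t_COMB4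
    Pool.Agent.J4H68.PP.num3
    (fun k _ E _ _ V W hfin ι _ h h1 h2 => Pool.Agent.J4H31.PP.fr k E V W hfin ι h h1 h2)
    (fun k _ E _ _ V V' A B hfin hV hB => Pool.Agent.J4H31.PP.mono k E V V' A B hfin hV hB)
    (Pool.Agent.J4H13.PP.t_UP Pool.Agent.J4H13.PP.t_END) hgrt hbracket hsoule hr hN hpar

end Pool.Agent.Results.MP_446dfa_ag.PositiveProportion
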