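import Pool.Agent.J4H43.MW.Fin
import Pool.Agent.J4H43.MW.Kb
import Pool.Agent.J4H43.MW.Van
import Pool.Agent.J4H80.MW.Hl
import Pool.Agent.J4H89.MW.Ll
import Pool.Agent.J4H49.MW.Td
import Pool.Agent.J4H89.MW.Rep
import Pool.Agent.J4H48.MW.AD
import Pool.Agent.J4H13.MW.Ev

/-!
# Elements of the same depth and several weights of the Grothendieck-Teichmüller Lie algebra
-/

namespace Pool.Agent.Results.MP_446dfa_ag.SeveralWeightsFree

open Pool.Agent.Helper392_GT Pool.Agent.J4H43.SW Pool.Agent.J4H43.MW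

universe u

/-- Elements of `𝔤𝔯𝔱₁` of depth at least `d` with linearly independent depth `d` parts, whose
weights take at most one value, or `m` values with every weight larger than `m d`, freely generate
a free Lie algebra for the Ihara bracket, and Lie polynomials in them have no depth drop. -/
theorem result {k : Type u} [Field k] [CharZero k] {r d : ℕ} {n : Fin r → ℕ} {σ : Fin r → F2 k}
    (hσ : ∀ i, IsGRT k (σ i)) (hw : ∀ i, σ i ∈ wt k (n i))
    (hn : (Finset.univ.image n).card ≤ 1 ∨ ∀ i, (Finset.univ.image n).card * d < n i)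
    (hd : ∀ i, DepthGE k d (σ i))
    (hli : ∀ c : Fin r → k, DepthGE k (d + 1) (∑ i, c i • σ i) → c = 0)
    {D : Fin r → LieDerivation k (F2 k) (F2 k)} (hD : ∀ i, IsIharaDer (D i) (σ i)) :
    Function.Injective (FreeLieAlgebra.lift k D) ∧
    ∀ (R : FreeLieAlgebra k (Fin r)) (w : FreeMonoid (Fin r)),
      (FreeAlgebra.equivMonoidAlgebraFreeMonoid (toA k r R)).coeff w ≠ 0 →
      ∀ h : F2 k, FreeLieAlgebra.lift k D R (FreeLieAlgebra.of k 1) =
        ⁅(FreeLieAlgebra.of k 1 : F2 k), h⁆ → ¬ DepthGE k (w.length * d + 1) h := by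
  have van : S_VAN.{u} := t_VAN (t_KB Pool.Agent.J4H80.MW.t_HL Pool.Agent.J4H89.MW.LL.t_LL
    Pool.Agent.J4H49.MW.t_TD Pool.Agent.J4H89.MW.t_REP)
  exact ⟨inj_all van Pool.Agent.J4H48.MW.t_AD Pool.Agent.J4H13.MW.t_EV hσ hw hn hd hli hD,
    fun _ _ hR _ hh => no_drop_all van Pool.Agent.J4H48.MW.t_AD Pool.Agent.J4H13.MW.t_EV
      hσ hw hn hd hli hD hR hh⟩

end Pool.Agent.Results.MP_446dfa_ag.SeveralWeightsFree
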