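import Pool.Agent.J4H43.SL.Image

namespace Pool.Agent.Results.MP_446dfa_ag.SlTwoQuotient

open Pool.Agent.Helper392_GT Pool.Agent.J4H43.SL

universe u

attribute [local instance 100] LieRing.ofAssociativeRing

/-- Let `L` be the free Lie algebra on `x, y` over a field `k` of characteristic zero. The map
`slMap` sends `ψ ∈ L` to its action on the tensor powers of the plane `k²`: the operators
`ψ(T₀₁, T₁₂)` on `(k²)^{⊗ N}` for all `N` and all colourings of the `N` tensor factors by
`0, 1, 2`, where `T_{pq}` is the sum of the flips of a factor of colour `p` with a factor of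
colour `q`, that is, the split Casimir element of `𝔤𝔩₂` acting on the blocks `p` and `q`.

Let `𝔤 ⊆ 𝔤𝔯𝔱₁` be a linear subspace which contains, for each odd `n ≥ 3`, an element of weight `n`
congruent to `ad(x)^(n-1) y` modulo depth two (for example the motivic Lie algebra). Then
* a solution of the pentagon equation (for example an element of `𝔤𝔯𝔱₁`) is killed by `slMap` if
  and only if its depth is at least two,
* `𝔤` and `𝔤𝔯𝔱₁` have the same image under `slMap`, and so have their weight `n` parts, whose image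
  has dimension `1` if `n ≥ 3` is odd and `0` otherwise. -/
theorem result {k : Type u} [Field k] [CharZero k] (𝔤 : Submodule k (F2 k)) (hgrt : 𝔤 ≤ grtSub k)
    (hsoule : HasSoule 𝔤) :
    (∀ ψ : F2 k, Pentagon k ψ → (slMap k ψ = 0 ↔ DepthGE k 2 ψ)) ∧
    slImage 𝔤 = slImage (grtSub k) ∧
    ∀ n : ℕ, slImage (𝔤 ⊓ wt k n) = slImage (grtSub k ⊓ wt k n) ∧
      slDim (grtSub k ⊓ wt k n) = if Odd n ∧ 3 ≤ n then 1 else 0 :=
  ⟨fun _ hp => slMap_eq_zero_iff hp, image_eq 𝔤 hgrt hsoule,
    fun n => ⟨image_wt 𝔤 hgrt hsoule n, image_finrank 𝔤 hgrt hsoule n⟩⟩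

end Pool.Agent.Results.MP_446dfa_ag.SlTwoQuotient
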