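import Pool.Agent.J4H43.FR.Main

/-!
# Two elements of the Grothendieck-Teichmüller Lie algebra
-/

namespace Pool.Agent.Results.MP_446dfa_ag.TwoFree

open Pool.Agent.Helper392_GT

universe u

/-- Two linearly independent elements of `𝔤𝔯𝔱₁` freely generate a free Lie algebra for the Ihara
bracket, and Lie polynomials in two elements with independent leading depth parts have no depth
drop. -/
theorem result {k : Type u} [Field k] [CharZero k] {σ τ : F2 k} (hσ : IsGRT k σ)
    (hτ : IsGRT k τ) {D E : LieDerivation k (F2 k) (F2 k)} (hD : IsIharaDer D σ)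
    (hE : IsIharaDer E τ) :
    (LinearIndependent k ![σ, τ] → Function.Injective (FreeLieAlgebra.lift k ![D, E])) ∧
    ∀ d d' : ℕ, DepthGE k d σ → ¬ DepthGE k (d + 1) σ → DepthGE k d' τ →
      (∀ c : k, ¬ DepthGE k (d' + 1) (τ - c • σ)) →
      ∀ R : F2 k, R ≠ 0 → ∀ p : ℕ,
        (∀ w : FreeMonoid (Fin 2), wordCoeff k R w ≠ 0 →
          w.toList.count 0 * d + w.toList.count 1 * d' ≤ p) →
        ∀ h : F2 k, FreeLieAlgebra.lift k ![D, E] R (FreeLieAlgebra.of k 1) =
          ⁅(FreeLieAlgebra.of k 1 : F2 k), h⁆ → ¬ DepthGE k (p + 1) h := by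
  refine ⟨fun hli => Pool.Agent.J4H43.FR.two_free hσ hτ hli hD hE, ?_⟩
  intro d d' h1 h2 h3 h4 R hR p hp h hh hdep
  exact hR (Pool.Agent.J4H43.FR.no_drop hσ hτ hD hE h1 h2 h3 h4 hp hh hdep)

end Pool.Agent.Results.MP_446dfa_ag.TwoFree
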